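import Pool.Agent.Results.MP_e94e4b_nt.EverySum

/-! The exceptional set of the result `EverySum` in the form needed for the transfer tools. -/

set_option autoImplicit false

namespace Pool.Agent.L7h16.SQ

open Finset
open Pool.Agent.Results.MP_e94e4b_nt.EverySum (pairs)

/-- for EVERY integer `h` with `|h| ≤ N ^ 2` and every window `[α, β]` in `[0, 1]` of length at least `N ^ (-δ)` there are at
least `c (β - α) N / (log N) ^ 2` integers `k` in `[2 α N, 2 β N]`, `2 ≤ k ≤ 2 N`, such that `N ^ 2 + k + 1` is a prime and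
`(N + 1) ^ 2 - k + 2 h` has at most `r` prime factors (with multiplicity), all of them larger than `N ^ δ` (`pairs`, starting
from the definition of the result `EverySum`) -/
def Good (r : ℕ) (c δ : ℝ) (N : ℕ) : Prop :=
  ∀ (h : ℤ) (α β : ℝ), |h| ≤ (N : ℤ) ^ 2 → 0 ≤ α → β ≤ 1 → (N : ℝ) ^ (-δ) ≤ β - α →
    c * ((β - α) * (N / Real.log N ^ 2)) ≤ ((pairs r δ N h α β).card : ℝ)

theorem count : ∃ (r : ℕ) (c δ η : ℝ), 0 < c ∧ 0 < δ ∧ 0 < η ∧ η ≤ 1 ∧ ∀ ε : ℝ, 0 < ε → ∃ C : ℝ, ∀ X : ℕ, 1 ≤ X →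
    ({t : ℕ | 1 ≤ t ∧ t ≤ X ∧ 2 ≤ t ∧ ¬ Good r c δ t}.ncard : ℝ) ≤ C * (X : ℝ) ^ ((1 - η) + ε) := by
  classical
  obtain ⟨r, c, δ, hc, hδ, X₀, h⟩ := Pool.Agent.Results.MP_e94e4b_nt.EverySum.result
  refine ⟨r, c, δ, min δ 1, hc, hδ, lt_min hδ one_pos, min_le_right _ _, fun ε hε => ⟨(X₀ : ℝ) + 1, fun X hX => ?_⟩⟩
  have hX1 : (1 : ℝ) ≤ X := by exact_mod_cast hX
  have hmin : min δ 1 ≤ 1 := min_le_right _ _
  have hpow : 1 ≤ (X : ℝ) ^ ((1 - min δ 1) + ε) := Real.one_le_rpow hX1 (by linarith)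
  have hX₀ : (0 : ℝ) ≤ X₀ := Nat.cast_nonneg _
  by_cases hXX : X₀ ≤ X
  · have e : {t : ℕ | 1 ≤ t ∧ t ≤ X ∧ 2 ≤ t ∧ ¬ Good r c δ t} =
        (((Icc 2 X).filter (fun t : ℕ => ¬ Good r c δ t) : Finset ℕ) : Set ℕ) := by
      ext t
      rw [coe_filter]
      constructor
      · rintro ⟨-, g2, g3, g4⟩
        exact ⟨mem_Icc.2 ⟨g3, g2⟩, g4⟩
      · rintro ⟨g1, g3⟩
        rw [mem_Icc] at g1
        exact ⟨by omega, g1.2, g1.1, g3⟩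
    rw [e, Set.ncard_coe_finset]
    have h1 := h X hXX
    have h2 : (((Icc 2 X).filter (fun t : ℕ => ¬ Good r c δ t)).card : ℝ) ≤ (X : ℝ) ^ (1 - δ) :=
      le_trans (le_of_eq (by unfold Good; congr!)) h1
    have h3 : (X : ℝ) ^ (1 - δ) ≤ (X : ℝ) ^ ((1 - min δ 1) + ε) :=
      Real.rpow_le_rpow_of_exponent_le hX1 (by linarith [min_le_left δ 1])
    nlinarith
  · rw [not_le] at hXX
    have h1 : ({t : ℕ | 1 ≤ t ∧ t ≤ X ∧ 2 ≤ t ∧ ¬ Good r c δ t}.ncard : ℝ) ≤ X := by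
      have h2 : {t : ℕ | 1 ≤ t ∧ t ≤ X ∧ 2 ≤ t ∧ ¬ Good r c δ t} ⊆ ((Icc 1 X : Finset ℕ) : Set ℕ) := by
        rintro t ⟨g1, g2, -, -⟩
        exact mem_coe.2 (mem_Icc.2 ⟨g1, g2⟩)
      have h3 := Set.ncard_le_ncard h2 (finite_toSet _)
      rw [Set.ncard_coe_finset, Nat.card_Icc] at h3
      exact_mod_cast h3
    have h4 : (X : ℝ) ≤ X₀ := by exact_mod_cast hXX.le
    nlinarith

end Pool.Agent.L7h16.SQ
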