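import Pool.Agent.L7h62.SQ.Stm

/-! Project SQ, part GRI (helper16). -/

set_option autoImplicit false

namespace Pool.Agent.L7h16.SQ

open Pool.Agent.L7h62.SQ

theorem s_GRI : S_GRI := by
  intro G _ _ _ k hk f hf
  have : Fact (Nat.Prime 2) := ⟨Nat.prime_two⟩
  have : CharP (MonoidAlgebra (ZMod 2) G) 2 :=
    charP_of_injective_algebraMap (algebraMap (ZMod 2) (MonoidAlgebra (ZMod 2) G)).injective 2
  -- the element of the group algebra
  let x : MonoidAlgebra (ZMod 2) G := ∑ g, MonoidAlgebra.single g (f g)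
  have hpow : x ^ (2 ^ k) = 1 := by
    show (∑ g, MonoidAlgebra.single g (f g)) ^ (2 ^ k) = (1 : MonoidAlgebra (ZMod 2) G)
    rw [sum_pow_char_pow]
    have h1 : ∀ g : G, (MonoidAlgebra.single g (f g) : MonoidAlgebra (ZMod 2) G) ^ (2 ^ k) =
        MonoidAlgebra.singleOneRingHom (f g) := by
      intro g
      rw [MonoidAlgebra.single_pow, ← hk, pow_card_eq_one]
      show _ = MonoidAlgebra.single 1 (f g)
      congr 1
      rw [hk]
      exact ZMod.pow_card_pow (p := 2) (n := k) (f g)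
    rw [Finset.sum_congr rfl fun g _ => h1 g, ← map_sum, hf, map_one]
  let y : MonoidAlgebra (ZMod 2) G := x ^ (2 ^ k - 1)
  have hxy : x * y = 1 := by
    show x * x ^ (2 ^ k - 1) = 1
    rw [← pow_succ', Nat.sub_add_cancel Nat.one_le_two_pow, hpow]
  refine ⟨fun σ => y.coeff σ⁻¹, fun g => ?_⟩
  have h2 : (x * y).coeff g = ∑ a, f a * y.coeff (a⁻¹ * g) := by
    show ((∑ a, MonoidAlgebra.single a (f a)) * y).coeff g = _
    rw [Finset.sum_mul, MonoidAlgebra.coeff_sum, Finsupp.finset_sum_apply]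
    exact Finset.sum_congr rfl fun a _ => MonoidAlgebra.coeff_single_mul_apply _ _ _ _
  have h3 : ∑ σ, y.coeff σ⁻¹ * f (g * σ) = ∑ a, f a * y.coeff (a⁻¹ * g) := by
    rw [← Equiv.sum_comp (Equiv.mulLeft g) (fun a => f a * y.coeff (a⁻¹ * g))]
    refine Finset.sum_congr rfl fun σ _ => ?_
    rw [Equiv.coe_mulLeft, mul_inv_rev, inv_mul_cancel_right, mul_comm]
  rw [h3, ← h2, hxy, MonoidAlgebra.one_def, MonoidAlgebra.coeff_single, Finsupp.single_apply]
  simp [eq_comm]

end Pool.Agent.L7h16.SQ
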